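import Mathlib

set_option autoImplicit false

namespace Pool.Agent.X118.PP

open Real

/-- the root of `z^d = z + 1` next to the positive real axis -/
theorem exists_root (d : ℕ) (hd : 6 ≤ d) : ∃ φ r : ℝ, 2 * π < φ * d ∧ φ * (d - 1) < 2 * π ∧
    1 < r ∧ r ^ d * cos (d * φ) = r * cos φ + 1 ∧ r ^ d * sin (d * φ) = r * sin φ := by
  have hd0 : (6 : ℝ) ≤ d := by exact_mod_cast hd
  have hπ := pi_pos
  have hd1 : (0 : ℝ) < d := by linarith
  have hd2 : (0 : ℝ) < d - 1 := by linarith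
  let H : ℝ → ℝ := fun φ => sin (d * φ) ^ d - sin φ * (-sin ((d - 1) * φ)) ^ (d - 1)
  have hcont : Continuous H := by
    show Continuous (fun φ : ℝ => sin (d * φ) ^ d - sin φ * (-sin ((d - 1) * φ)) ^ (d - 1))
    fun_prop
  have hab : 2 * π / d ≤ 2 * π / (d - 1) := by
    apply div_le_div_of_nonneg_left (by positivity) hd2 (by linarith)
  have hb_lt : 2 * π / (d - 1) < π / 2 := by
    rw [div_lt_div_iff₀ hd2 (by norm_num)]
    nlinarith
  have ha_pos : 0 < 2 * π / d := by positivity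
  have hHa : H (2 * π / d) < 0 := by
    have e1 : (d : ℝ) * (2 * π / d) = 2 * π := by field_simp
    have e2 : ((d : ℝ) - 1) * (2 * π / d) = 2 * π - 2 * π / d := by field_simp
    show sin (d * (2 * π / d)) ^ d - sin (2 * π / d) * (-sin ((d - 1) * (2 * π / d))) ^ (d - 1) < 0
    rw [e1, e2, sin_two_pi, sin_two_pi_sub, neg_neg, zero_pow (by omega)]
    have hs : 0 < sin (2 * π / d) := sin_pos_of_pos_of_lt_pi ha_pos (by linarith)
    have := mul_pos hs (pow_pos hs (d - 1))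
    linarith
  have hHb : 0 < H (2 * π / (d - 1)) := by
    have e1 : (d : ℝ) * (2 * π / (d - 1)) = 2 * π / (d - 1) + 2 * π := by
      field_simp
      ring
    have e2 : ((d : ℝ) - 1) * (2 * π / (d - 1)) = 2 * π := by field_simp
    show 0 < sin (d * (2 * π / (d - 1))) ^ d
      - sin (2 * π / (d - 1)) * (-sin ((d - 1) * (2 * π / (d - 1)))) ^ (d - 1)
    rw [e1, e2, sin_two_pi, sin_add_two_pi, neg_zero, zero_pow (by omega : d - 1 ≠ 0), mul_zero,
      sub_zero]
    exact pow_pos (sin_pos_of_pos_of_lt_pi (by positivity) (by linarith)) _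
  obtain ⟨φ, ⟨hφ1, hφ2⟩, hφ⟩ := intermediate_value_Icc hab hcont.continuousOn
    (show (0 : ℝ) ∈ Set.Icc (H (2 * π / d)) (H (2 * π / (d - 1))) from ⟨hHa.le, hHb.le⟩)
  have hφ1' : 2 * π / d < φ := by
    rcases hφ1.lt_or_eq with h | h
    · exact h
    · rw [← h] at hφ
      linarith
  have hφ2' : φ < 2 * π / (d - 1) := by
    rcases hφ2.lt_or_eq with h | h
    · exact h
    · rw [h] at hφ
      linarith
  have hA1 : 2 * π < φ * d := by rwa [div_lt_iff₀ hd1] at hφ1'
  have hA2 : φ * (d - 1) < 2 * π := by rwa [lt_div_iff₀ hd2] at hφ2'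
  have hφ0 : 0 < φ := ha_pos.trans hφ1'
  have hφπ : φ < π / 2 := hφ2'.trans hb_lt
  have hsinφ : 0 < sin φ := sin_pos_of_pos_of_lt_pi hφ0 (by linarith)
  have hcosφ : 0 < cos φ := cos_pos_of_mem_Ioo ⟨by linarith, hφπ⟩
  have hsd : 0 < sin (d * φ) := by
    have e : sin (d * φ) = sin (d * φ - 2 * π) := (sin_sub_two_pi _).symm
    rw [e]
    apply sin_pos_of_pos_of_lt_pi
    · linarith
    · linarith
  have hS : 0 < -sin ((d - 1) * φ) := by
    have e : -sin ((d - 1) * φ) = sin (2 * π - (d - 1) * φ) := by rw [sin_two_pi_sub]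
    rw [e]
    apply sin_pos_of_pos_of_lt_pi
    · linarith
    · linarith
  set S := -sin ((d - 1) * φ) with hSdef
  set r := sin (d * φ) / S with hrdef
  have hr0 : 0 < r := div_pos hsd hS
  have hrS : r * S = sin (d * φ) := by rw [hrdef]; field_simp
  have hH : sin (d * φ) ^ d = sin φ * S ^ (d - 1) := by
    have : sin (d * φ) ^ d - sin φ * S ^ (d - 1) = 0 := hφ
    linarith
  have hE1 : r ^ (d - 1) * sin (d * φ) = sin φ := by
    have h1 : r ^ (d - 1) * S ^ (d - 1) = sin (d * φ) ^ (d - 1) := by rw [← mul_pow, hrS]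
    have h2 : sin (d * φ) ^ d = sin (d * φ) ^ (d - 1) * sin (d * φ) := by
      rw [← pow_succ]
      congr 1
      omega
    have h3 : S ^ (d - 1) ≠ 0 := pow_ne_zero _ hS.ne'
    apply mul_right_cancel₀ h3
    rw [← hH, h2, ← h1]
    ring
  have hrd : r ^ d = r * r ^ (d - 1) := by
    rw [← pow_succ']
    congr 1
    omega
  have him : r ^ d * sin (d * φ) = r * sin φ := by
    rw [hrd, mul_assoc, hE1]
  have hre : r ^ d * cos (d * φ) = r * cos φ + 1 := by
    apply mul_right_cancel₀ hsd.ne'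
    have h1 : S = -(sin (d * φ) * cos φ - cos (d * φ) * sin φ) := by
      rw [hSdef, ← sin_sub]
      congr 2
      ring
    have h2 : r ^ d * cos (d * φ) * sin (d * φ) = r * sin φ * cos (d * φ) := by
      rw [← him]; ring
    rw [h2]
    have h3 := hrS
    rw [h1] at h3
    linear_combination h3
  refine ⟨φ, r, hA1, hA2, ?_, hre, him⟩
  by_contra hcon
  push Not at hcon
  have h1 : r ^ d ≤ 1 := pow_le_one₀ hr0.le hcon
  have h2 : r ^ d * cos (d * φ) ≤ 1 := by
    have h3 := cos_le_one (d * φ)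
    have h4 : 0 ≤ r ^ d := by positivity
    nlinarith
  rw [hre] at h2
  have := mul_pos hr0 hcosφ
  linarith

/-- bounds for the modulus of that root -/
theorem root_bounds (d : ℕ) (hd : 6 ≤ d) (β φ r : ℝ) (hβ : 1 < β) (hβd : β ^ d = β + 1)
    (hA1 : 2 * π < φ * d) (hA2 : φ * (d - 1) < 2 * π) (hr : 1 < r)
    (hre : r ^ d * cos (d * φ) = r * cos φ + 1) (him : r ^ d * sin (d * φ) = r * sin φ) :
    r < β ∧ cos (φ / 2) * β ^ (d - 1) ≤ r ^ (d - 1) ∧ 2 * cos (φ / 2) ≤ r ^ d := by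
  have hd0 : (6 : ℝ) ≤ d := by exact_mod_cast hd
  have hπ := pi_pos
  have hφ0 : 0 < φ := by
    by_contra h
    push Not at h
    nlinarith
  have hφ2 : φ < π / 2 := by nlinarith
  have hr0 : 0 < r := by linarith
  have hsq : (r ^ d) ^ 2 = r ^ 2 + 2 * r * cos φ + 1 := by
    have h1 := sin_sq_add_cos_sq (d * φ)
    have h2 := sin_sq_add_cos_sq φ
    have h3 : (r ^ d) ^ 2 = (r ^ d * cos (d * φ)) ^ 2 + (r ^ d * sin (d * φ)) ^ 2 := by
      linear_combination -(r ^ d) ^ 2 * h1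
    rw [h3, hre, him]
    linear_combination r ^ 2 * h2
  have hc1 : cos φ < 1 := by
    have h1 := cos_lt_cos_of_nonneg_of_le_pi (x := 0) (y := φ) le_rfl (by linarith) hφ0
    rwa [cos_zero] at h1
  have hc0 : 0 < cos (φ / 2) := cos_pos_of_mem_Ioo ⟨by linarith, by linarith⟩
  have hc2 : cos (φ / 2) ^ 2 = (1 + cos φ) / 2 := by
    rw [cos_sq, show 2 * (φ / 2) = φ by ring]
    ring
  have hlt : r ^ d < r + 1 := by
    have h1 : (r ^ d) ^ 2 < (r + 1) ^ 2 := by rw [hsq]; nlinarith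
    exact lt_of_pow_lt_pow_left₀ 2 (by linarith) h1
  have hge : (r + 1) * cos (φ / 2) ≤ r ^ d := by
    have h1 : ((r + 1) * cos (φ / 2)) ^ 2 ≤ (r ^ d) ^ 2 := by
      rw [hsq, mul_pow, hc2]
      nlinarith [mul_nonneg (sq_nonneg (r - 1)) (by linarith : 0 ≤ 1 - cos φ)]
    exact le_of_sq_le_sq h1 (by positivity)
  have hβ0 : 0 < β := by linarith
  have hrd : r ^ d = r * r ^ (d - 1) := by
    rw [← pow_succ']
    congr 1
    omega
  have hbd : β ^ d = β * β ^ (d - 1) := by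
    rw [← pow_succ']
    congr 1
    omega
  have hrβ : r < β := by
    by_contra h
    push Not at h
    have h1 : β ^ (d - 1) ≤ r ^ (d - 1) := pow_le_pow_left₀ hβ0.le h _
    have h2 : r * β ^ (d - 1) ≤ r ^ d := by
      rw [hrd]
      exact mul_le_mul_of_nonneg_left h1 hr0.le
    have h3 : β * β ^ (d - 1) = β + 1 := by rw [← hbd, hβd]
    -- r * (β+1)/β ≥ r + 1
    have h4 : (r + 1) * β ≤ r * (β * β ^ (d - 1)) := by rw [h3]; nlinarith
    have h5 : r * (β * β ^ (d - 1)) ≤ r ^ d * β := by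
      have : r * (β * β ^ (d - 1)) = (r * β ^ (d - 1)) * β := by ring
      rw [this]
      exact mul_le_mul_of_nonneg_right h2 hβ0.le
    have h6 : r ^ d * β < (r + 1) * β := mul_lt_mul_of_pos_right hlt hβ0
    linarith
  refine ⟨hrβ, ?_, ?_⟩
  · have h3 : β * β ^ (d - 1) = β + 1 := by rw [← hbd, hβd]
    have h4 : (r + 1) * cos (φ / 2) ≤ r * r ^ (d - 1) := by rw [← hrd]; exact hge
    -- c β^(d-1) r β ≤ r^(d-1) r β
    have hpos : 0 < r * β := by positivity
    apply le_of_mul_le_mul_right _ hpos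
    have h5 : cos (φ / 2) * β ^ (d - 1) * (r * β) = cos (φ / 2) * r * (β + 1) := by
      rw [← h3]; ring
    have h6 : r ^ (d - 1) * (r * β) = (r * r ^ (d - 1)) * β := by ring
    rw [h5, h6]
    have h7 : (r + 1) * cos (φ / 2) * β ≤ r * r ^ (d - 1) * β :=
      mul_le_mul_of_nonneg_right h4 hβ0.le
    nlinarith [mul_pos hc0 (sub_pos.2 hrβ)]
  · nlinarith

end Pool.Agent.X118.PP
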