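import Mathlib

set_option autoImplicit false

namespace Pool.Agent.X118.PP

open Real

theorem avg (s : ℝ) (hs : 1 ≤ s) (k n : ℕ) (hkn : k ≤ n) :
    (n : ℝ) * (s ^ k - 1) ≤ k * (s ^ n - 1) := by
  have haux : ∀ (k n : ℕ), k ≤ n → s ^ k - 1 ≤ k * (s ^ n * (s - 1)) := by
    intro k
    induction k with
    | zero => intro n _; simp
    | succ k ih =>
      intro n hn
      have h1 := ih n (by omega)
      have h2 : s ^ k ≤ s ^ n := pow_le_pow_right₀ hs (by omega)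
      have h3 : s ^ k * (s - 1) ≤ s ^ n * (s - 1) :=
        mul_le_mul_of_nonneg_right h2 (by linarith)
      push_cast
      rw [pow_succ]
      linarith
  induction n, hkn using Nat.le_induction with
  | base => exact le_rfl
  | succ n hn ih =>
    have h1 := haux k n hn
    push_cast
    have h2 : s ^ (n + 1) = s ^ n + s ^ n * (s - 1) := by ring
    rw [h2]
    linarith

theorem n_prod (y : ℝ) (h0 : 0 < y) (h1 : y < 0.026) :
    1 < (1 + 0.1255 * y) * (1 - y / 8) := by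
  have h2 : (1 + 0.1255 * y) * (1 - y / 8) = 1 + y * (0.0005 - 0.0156875 * y) := by ring
  rw [h2]
  have h3 : 0 < 0.0005 - 0.0156875 * y := by linarith
  have := mul_pos h0 h3
  linarith

theorem n_phi (d : ℝ) (hd : 40 ≤ d) (φ : ℝ) (hA1 : 2 * π < φ * d) (hA2 : φ * (d - 1) < 2 * π) :
    0 < φ ∧ φ < 0.16111 ∧ 0 < φ ^ 2 ∧ φ ^ 2 < 0.026 ∧ φ * d ≤ 40 / 39 * 6.2832 := by
  have hπ0 := pi_pos
  have hπ2 := pi_lt_d4
  have hφ0 : 0 < φ := by
    by_contra h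
    push Not at h
    have := mul_nonpos_of_nonpos_of_nonneg h (by linarith : (0 : ℝ) ≤ d)
    linarith
  have h1 : φ * 39 ≤ φ * (d - 1) := mul_le_mul_of_nonneg_left (by linarith) hφ0.le
  have hφs : φ < 0.16111 := by linarith
  have h2 : φ ^ 2 < 0.16111 ^ 2 := pow_lt_pow_left₀ hφs hφ0.le (by norm_num)
  refine ⟨hφ0, hφs, by positivity, ?_, ?_⟩
  · norm_num at h2 ⊢
    linarith
  · have h3 : φ * d = φ * (d - 1) + φ := by ring
    rw [h3]
    linarith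

theorem n_R (R : ℝ) (h1 : 1 < R) (h : R ^ 2 ≤ R + 1) : R < 1.6181 := by
  by_contra hc
  push Not at hc
  have : 0 ≤ (R - 1.6181) * (R + 0.6181) := mul_nonneg (by linarith) (by linarith)
  nlinarith

theorem n_t (t c y : ℝ) (hy0 : 0 < y) (hy : y < 0.026) (hc : 1 - y / 8 ≤ c) (ht : 1 ≤ t)
    (h : t * c ≤ 1) : t - 1 ≤ 0.1255 * y := by
  have h1 : t * (1 - y / 8) ≤ 1 := (mul_le_mul_of_nonneg_left hc (by linarith)).trans h
  by_contra hcon
  push Not at hcon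
  have h2 : (1 + 0.1255 * y) * (1 - y / 8) ≤ t * (1 - y / 8) :=
    mul_le_mul_of_nonneg_right (by linarith) (by linarith)
  have h3 := n_prod y hy0 hy
  linarith

theorem n_r (d : ℕ) (r c y : ℝ) (hr0 : 0 < r) (hy0 : 0 < y) (hy : y < 0.026)
    (hc : 1 - y / 8 ≤ c) (h2c : 2 * c ≤ r ^ d) : 0.6898 ≤ (r - 1) * d := by
  have hcpos : 0 < c := by linarith
  have h1 : log (2 * c) ≤ log (r ^ d) := log_le_log (by linarith) h2c
  rw [log_pow, log_mul (by norm_num) hcpos.ne'] at h1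
  have h2 := log_le_sub_one_of_pos hr0
  have h3 := log_two_gt_d9
  have h4 := one_sub_inv_le_log_of_pos hcpos
  have h5 : c⁻¹ ≤ 1 + 0.1255 * y := by
    rw [inv_eq_one_div, div_le_iff₀ hcpos]
    have h6 := n_prod y hy0 hy
    have h7 : (1 + 0.1255 * y) * (1 - y / 8) ≤ (1 + 0.1255 * y) * c :=
      mul_le_mul_of_nonneg_left hc (by linarith)
    linarith
  have h6 : (d : ℝ) * log r ≤ d * (r - 1) := mul_le_mul_of_nonneg_left h2 (Nat.cast_nonneg d)
  have h7 : (r - 1) * d = d * (r - 1) := mul_comm _ _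
  rw [h7]
  linarith

theorem n_kd (k d u : ℝ) (hd : 0 < d) (hu : 0 < u) (h1 : 0.6898 ≤ u * d) (h2 : k * u ≤ 0.6181) :
    k ≤ 0.8961 * d := by
  by_contra h
  push Not at h
  have h3 : 0.8961 * d * u < k * u := mul_lt_mul_of_pos_right h hu
  have h4 : 0.8961 * d * u = 0.8961 * (u * d) := by ring
  rw [h4] at h3
  linarith

theorem n_fin (k d u q s y R : ℝ) (hk : 1 ≤ k) (hd : 40 ≤ d) (hu : 0 < u) (h1 : 0.6898 ≤ u * d)
    (hq : 0 ≤ q) (hR : 1 + k * u ≤ R) (hR2 : R ^ 2 ≤ 2.6181) (hs : 0 ≤ s)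
    (h2 : (d - 1) * s ≤ k * (0.1255 * y)) (hA : (R - 1) * q ≤ R ^ 2 * s) (hy : 0 < y) :
    q ≤ 0.4886 * y := by
  have a1 : R ^ 2 * s ≤ 2.6181 * s := mul_le_mul_of_nonneg_right hR2 hs
  have a2 : k * u * q ≤ (R - 1) * q := mul_le_mul_of_nonneg_right (by linarith) hq
  have a3 : k * u * q ≤ 2.6181 * s := a2.trans (hA.trans a1)
  have a4 : d * (k * u * q) ≤ d * (2.6181 * s) := mul_le_mul_of_nonneg_left a3 (by linarith)
  have a5 : d * (2.6181 * s) ≤ (40 / 39 * (d - 1)) * (2.6181 * s) :=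
    mul_le_mul_of_nonneg_right (by linarith) (by positivity)
  have a6 : (40 / 39 * (d - 1)) * (2.6181 * s) = 40 / 39 * 2.6181 * ((d - 1) * s) := by ring
  have a7 : d * (k * u * q) = (u * d) * (k * q) := by ring
  have a8 : 0.6898 * (k * q) ≤ (u * d) * (k * q) :=
    mul_le_mul_of_nonneg_right h1 (by positivity)
  have a9 : k * (0.6898 * q) ≤ k * (40 / 39 * 2.6181 * 0.1255 * y) := by
    have e1 : k * (0.6898 * q) = 0.6898 * (k * q) := by ring
    have e2 : k * (40 / 39 * 2.6181 * 0.1255 * y) = 40 / 39 * 2.6181 * (k * (0.1255 * y)) := by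
      ring
    rw [e1, e2]
    linarith
  have a10 := le_of_mul_le_mul_left a9 (by linarith)
  linarith

theorem n_case2 (k φ : ℝ) (hk : 2 ≤ k) (hφ : 0 < φ) (hφ2 : φ ^ 2 < 0.026) (hkφ : k * φ ≤ 5.7756)
    (hq : 1 - cos (k * φ) ≤ 0.4886 * φ ^ 2) : False := by
  have hπ1 := pi_gt_d4
  have hπ2 := pi_lt_d4
  have h7 : 0.2 ≤ 2 / π ^ 2 := by
    rw [le_div_iff₀ (by positivity)]
    have : π ^ 2 < 3.1416 ^ 2 := pow_lt_pow_left₀ hπ2 pi_pos.le (by norm_num)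
    norm_num at this ⊢
    linarith
  have hpos : 0 < k * φ := by positivity
  have hφ2p : 0 < φ ^ 2 := by positivity
  by_cases hle : k * φ ≤ π
  · have h6 := cos_le_one_sub_mul_cos_sq (x := k * φ) (by rw [abs_of_pos hpos]; exact hle)
    have h8 : 0.2 * (k * φ) ^ 2 ≤ 2 / π ^ 2 * (k * φ) ^ 2 :=
      mul_le_mul_of_nonneg_right h7 (sq_nonneg _)
    have h9 : 4 * φ ^ 2 ≤ (k * φ) ^ 2 := by
      rw [mul_pow]
      have h10 : (2 : ℝ) ^ 2 ≤ k ^ 2 := pow_le_pow_left₀ (by norm_num) hk 2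
      have h11 : (4 : ℝ) ≤ k ^ 2 := by linarith
      exact mul_le_mul_of_nonneg_right h11 hφ2p.le
    linarith
  · push Not at hle
    have h6 := cos_le_one_sub_mul_cos_sq (x := 2 * π - k * φ) (by
      rw [abs_of_pos (by linarith)]; linarith)
    rw [cos_two_pi_sub] at h6
    have h8 : 0.2 * (2 * π - k * φ) ^ 2 ≤ 2 / π ^ 2 * (2 * π - k * φ) ^ 2 :=
      mul_le_mul_of_nonneg_right h7 (sq_nonneg _)
    have h9 : 0.5 ≤ 2 * π - k * φ := by linarith
    have h10 : (0.5 : ℝ) ^ 2 ≤ (2 * π - k * φ) ^ 2 := pow_le_pow_left₀ (by norm_num) h9 2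
    norm_num at h10
    linarith

theorem n_case1 (φ : ℝ) (hφ : 0 < φ) (hφ1 : φ < 1) (hφ2 : φ ^ 2 < 0.026)
    (hq : 1 - cos φ ≤ 0.4886 * φ ^ 2) : False := by
  have h6 := cos_bound (x := φ) (by rw [abs_of_pos hφ]; linarith)
  rw [abs_le] at h6
  have h7 : |φ| ^ 4 = φ ^ 2 * φ ^ 2 := by
    rw [abs_of_pos hφ]; ring
  rw [h7] at h6
  have hφ2p : 0 < φ ^ 2 := by positivity
  have h8 : φ ^ 2 * φ ^ 2 ≤ φ ^ 2 * 0.026 := mul_le_mul_of_nonneg_left hφ2.le hφ2p.le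
  linarith [h6.2]

/-- the numerical inequality behind the theorem -/
theorem numeric (d k : ℕ) (hd : 40 ≤ d) (hk : 1 ≤ k) (β φ r : ℝ) (hr : 1 < r) (hrβ : r < β)
    (hA1 : 2 * π < φ * d) (hA2 : φ * (d - 1) < 2 * π)
    (hc : cos (φ / 2) * β ^ (d - 1) ≤ r ^ (d - 1)) (h2c : 2 * cos (φ / 2) ≤ r ^ d)
    (hB : (r ^ k) ^ 2 ≤ r ^ k + 1)
    (hA : (r ^ k - 1) * (1 - cos (k * φ)) ≤ r ^ k * (β ^ k - r ^ k)) : False := by
  have hd0 : (40 : ℝ) ≤ d := by exact_mod_cast hd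
  have hk0 : (1 : ℝ) ≤ k := by exact_mod_cast hk
  have hr0 : 0 < r := by linarith
  have hβ0 : 0 < β := by linarith
  obtain ⟨hφ0, hφs, hφ2p, hφ2, hφd⟩ := n_phi d hd0 φ hA1 hA2
  have hc0 : 1 - φ ^ 2 / 8 ≤ cos (φ / 2) := by
    have := one_sub_sq_div_two_le_cos (x := φ / 2)
    have e : (φ / 2) ^ 2 / 2 = φ ^ 2 / 8 := by ring
    rw [e] at this
    exact this
  have hcpos : 0 < cos (φ / 2) := by linarith
  have hs1 : 1 < β / r := by rw [lt_div_iff₀ hr0]; linarith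
  have hβs : β = r * (β / r) := by field_simp
  have hr1 := n_r d r (cos (φ / 2)) (φ ^ 2) hr0 hφ2p hφ2 hc0 h2c
  have ht : (β / r) ^ (d - 1) * cos (φ / 2) ≤ 1 := by
    rw [div_pow, div_mul_eq_mul_div, div_le_one (by positivity)]
    linarith
  have ht2 := n_t _ _ (φ ^ 2) hφ2p hφ2 hc0 (one_le_pow₀ hs1.le (n := d - 1)) ht
  have hR1 : 1 + k * (r - 1) ≤ r ^ k := by
    have := one_add_mul_le_pow (a := r - 1) (by linarith) k
    simpa using this
  have hku : 0 < (k : ℝ) * (r - 1) := mul_pos (by linarith) (by linarith)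
  have hRpos : 1 < r ^ k := by linarith
  have hRlt := n_R _ hRpos hB
  have hkd := n_kd k d (r - 1) (by linarith) (by linarith) hr1 (by linarith)
  have hkn : k ≤ d - 1 := by
    have : (k : ℝ) ≤ ((d - 1 : ℕ) : ℝ) := by
      rw [Nat.cast_sub (by omega)]
      push_cast
      linarith
    exact_mod_cast this
  have havg := avg (β / r) hs1.le k (d - 1) hkn
  rw [Nat.cast_sub (by omega : 1 ≤ d), Nat.cast_one] at havg
  have hRB : r ^ k * (β ^ k - r ^ k) = (r ^ k) ^ 2 * ((β / r) ^ k - 1) := by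
    rw [div_pow]
    have : r ^ k ≠ 0 := pow_ne_zero _ hr0.ne'
    field_simp
  rw [hRB] at hA
  have h2 : ((d : ℝ) - 1) * ((β / r) ^ k - 1) ≤ k * (0.1255 * φ ^ 2) :=
    havg.trans (mul_le_mul_of_nonneg_left ht2 (by linarith))
  have hq := n_fin k d (r - 1) (1 - cos (k * φ)) ((β / r) ^ k - 1) (φ ^ 2) (r ^ k) hk0 hd0
    (by linarith) hr1 (by linarith [cos_le_one (k * φ)]) hR1 (by linarith)
    (by linarith [one_le_pow₀ hs1.le (n := k)]) h2 hA hφ2p
  rcases hk.lt_or_eq with hk2 | hk1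
  · refine n_case2 k φ (by exact_mod_cast hk2) hφ0 hφ2 ?_ hq
    have h6 : k * φ ≤ 0.8961 * d * φ := mul_le_mul_of_nonneg_right hkd hφ0.le
    have h7 : 0.8961 * d * φ = 0.8961 * (φ * d) := by ring
    rw [h7] at h6
    linarith
  · rw [← hk1, Nat.cast_one, one_mul] at hq
    exact n_case1 φ hφ0 (by linarith) hφ2 hq

end Pool.Agent.X118.PP
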