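import Mathlib

set_option autoImplicit false

namespace Pool.Agent.X118.PP

open Polynomial Filter Topology

/-- The `β`-transformation `T_β(x) = βx - ⌊βx⌋`. -/
noncomputable def T (B : ℝ) (x : ℝ) : ℝ := B * x - ⌊B * x⌋

/-- `B > 1` is a Parry number if the orbit `{T_B^n(1) : n ≥ 1}` is finite. -/
def IsParry (B : ℝ) : Prop :=
  1 < B ∧ {y : ℝ | ∃ n : ℕ, 1 ≤ n ∧ y = (T B)^[n] 1}.Finite

/-- the orbit of `1` -/
noncomputable def orb (B : ℝ) : ℕ → ℝ
  | 0 => 1
  | (n + 1) => T B (orb B n)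

theorem orb_eq (B : ℝ) (n : ℕ) : (T B)^[n] 1 = orb B n := by
  induction n with
  | zero => rfl
  | succ n ih => rw [Function.iterate_succ_apply', ih]; rfl

/-- the digits -/
noncomputable def dg (B : ℝ) (n : ℕ) : ℤ := ⌊B * orb B n⌋

theorem orb_succ (B : ℝ) (n : ℕ) : orb B (n + 1) = B * orb B n - dg B n := rfl

theorem orb_nonneg (B : ℝ) (n : ℕ) : 0 ≤ orb B n := by
  cases n with
  | zero => exact zero_le_one
  | succ n =>
    rw [orb_succ]
    have := Int.floor_le (B * orb B n)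
    unfold dg
    linarith

theorem orb_le_one (B : ℝ) (n : ℕ) : orb B n ≤ 1 := by
  cases n with
  | zero => exact le_rfl
  | succ n =>
    rw [orb_succ]
    have := Int.lt_floor_add_one (B * orb B n)
    unfold dg
    linarith

theorem dg_nonneg (B : ℝ) (hB : 1 < B) (n : ℕ) : 0 ≤ dg B n := by
  unfold dg
  exact Int.floor_nonneg.2 (mul_nonneg (by linarith) (orb_nonneg B n))

/-- the polynomials with `P_n(B) = T_B^n(1)` -/
noncomputable def PP (B : ℝ) : ℕ → ℤ[X]
  | 0 => 1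
  | (n + 1) => X * PP B n - C (dg B n)

theorem PP_eval (B : ℝ) (n : ℕ) : aeval B (PP B n) = orb B n := by
  induction n with
  | zero => simp [PP, orb]
  | succ n ih =>
    show aeval B (X * PP B n - C (dg B n)) = _
    rw [map_sub, map_mul, aeval_X, ih, aeval_C, orb_succ]
    rfl

theorem PP_aeval_succ (B : ℝ) (Z : ℂ) (n : ℕ) :
    aeval Z (PP B (n + 1)) = Z * aeval Z (PP B n) - dg B n := by
  show aeval Z (X * PP B n - C (dg B n)) = _
  rw [map_sub, map_mul, aeval_X, aeval_C]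
  rfl

/-- if `B` is a Parry number, then the conjugate orbit is bounded -/
theorem bounded_of_parry (B : ℝ) (hB : IsParry B) (Z : ℂ)
    (hZ : ∀ Q : ℤ[X], aeval B Q = 0 → aeval Z Q = 0) :
    ∃ C : ℝ, 0 ≤ C ∧ ∀ n, ‖aeval Z (PP B n)‖ ≤ C := by
  obtain ⟨-, hfin⟩ := hB
  have h1 : ∃ m n : ℕ, m < n ∧ orb B m = orb B n := by
    have hmaps : Set.MapsTo (fun n : ℕ => orb B (n + 1)) Set.univ
        {y : ℝ | ∃ n : ℕ, 1 ≤ n ∧ y = (T B)^[n] 1} := by
      intro n _
      exact ⟨n + 1, by omega, (orb_eq B (n + 1)).symm⟩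
    obtain ⟨i, -, j, -, hij, he⟩ := Set.infinite_univ.exists_ne_map_eq_of_mapsTo hmaps hfin
    rcases lt_or_gt_of_ne hij with h | h
    · exact ⟨i + 1, j + 1, by omega, he⟩
    · exact ⟨j + 1, i + 1, by omega, he.symm⟩
  obtain ⟨m, n, hmn, he⟩ := h1
  have horb : ∀ i, orb B (m + i) = orb B (n + i) := by
    intro i
    induction i with
    | zero => exact he
    | succ i ih =>
      rw [← add_assoc, ← add_assoc]
      show T B (orb B (m + i)) = T B (orb B (n + i))
      rw [ih]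
  have hb : ∀ i, aeval Z (PP B (m + i)) = aeval Z (PP B (n + i)) := by
    intro i
    induction i with
    | zero =>
      have h2 : aeval B (PP B m - PP B n) = 0 := by
        rw [map_sub, PP_eval, PP_eval, he, sub_self]
      have h3 := hZ _ h2
      rw [map_sub] at h3
      exact sub_eq_zero.1 h3
    | succ i ih =>
      rw [← add_assoc, ← add_assoc, PP_aeval_succ, PP_aeval_succ, ih]
      have : dg B (m + i) = dg B (n + i) := by unfold dg; rw [horb i]
      rw [this]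
  refine ⟨∑ i ∈ Finset.range n, ‖aeval Z (PP B i)‖,
    Finset.sum_nonneg (fun _ _ => norm_nonneg _), ?_⟩
  intro i
  induction i using Nat.strong_induction_on with
  | _ i ih =>
    by_cases hi : i < n
    · exact Finset.single_le_sum (f := fun i => ‖aeval Z (PP B i)‖)
        (fun _ _ => norm_nonneg _) (Finset.mem_range.2 hi)
    · have h4 := hb (i - n)
      have e : n + (i - n) = i := by omega
      rw [e] at h4
      rw [← h4]
      exact ih (m + (i - n)) (by omega)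

/-- `b_n x^n = 1 - S_n` -/
theorem partial_sum (B : ℝ) (Z : ℂ) (hZ0 : Z ≠ 0) (n : ℕ) :
    ∑ j ∈ Finset.range n, (dg B j : ℂ) * (Z⁻¹) ^ (j + 1) =
      1 - aeval Z (PP B n) * (Z⁻¹) ^ n := by
  induction n with
  | zero => simp [PP]
  | succ n ih =>
    rw [Finset.sum_range_succ, ih, PP_aeval_succ]
    have : Z * Z⁻¹ = 1 := mul_inv_cancel₀ hZ0
    linear_combination (aeval Z (PP B n) * (Z⁻¹) ^ n) * this

/-- the digit sum in terms of the orbit -/
theorem partial_orb {K : Type*} [Field K] (f : ℝ →+* K) (B : ℝ) (x : K) (n : ℕ) :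
    ∑ j ∈ Finset.range n, f (dg B j : ℝ) * x ^ (j + 1) =
      1 - f (orb B n) * x ^ n
        + (f B * x - 1) * ∑ j ∈ Finset.range n, f (orb B j) * x ^ j := by
  induction n with
  | zero => simp [orb]
  | succ n ih =>
    rw [Finset.sum_range_succ, Finset.sum_range_succ, ih]
    have h : f (orb B (n + 1)) = f B * f (orb B n) - f (dg B n : ℝ) := by
      rw [orb_succ, map_sub, map_mul]
    rw [h]
    ring

theorem geom_le (x : ℝ) (h0 : 0 ≤ x) (h1 : x < 1) (n : ℕ) :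
    ∑ j ∈ Finset.range n, x ^ j ≤ (1 - x)⁻¹ := by
  have h := geom_sum_mul_neg x n
  have hx : 0 < 1 - x := by linarith
  rw [inv_eq_one_div, le_div_iff₀ hx, h]
  have := pow_nonneg h0 n
  linarith

/-- **(A)** the real part inequality -/
theorem ineqA (B : ℝ) (hB : 1 < B) (Z : ℂ) (R c C : ℝ) (hR : ‖Z‖ = R) (hR1 : 1 < R) (hRB : R ≤ B)
    (hre : (Z⁻¹).re = c / R) (hc : c ≤ 1)
    (hC : ∀ n, ‖aeval Z (PP B n)‖ ≤ C) :
    (R - 1) * (1 - c) ≤ R * (B - R) := by
  have hR0 : 0 < R := by linarith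
  have hZ0 : Z ≠ 0 := by
    rintro rfl
    rw [norm_zero] at hR
    linarith
  have hC0 : 0 ≤ C := (norm_nonneg _).trans (hC 0)
  have hinv : ‖Z⁻¹‖ = R⁻¹ := by rw [norm_inv, hR]
  -- the inequality for every `n`
  have key : ∀ n : ℕ, (1 - c) / R ≤ (B - R) / (R - 1) + C * (R⁻¹) ^ (n + 1) := by
    intro n
    have h1 := partial_sum B Z hZ0 (n + 1)
    have h2 := partial_orb (RingHom.id ℝ) B (R⁻¹) (n + 1)
    simp only [RingHom.id_apply] at h2
    have h3 : (∑ j ∈ Finset.range (n + 1), (dg B j : ℂ) * (Z⁻¹) ^ (j + 1)).re ≤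
        (∑ j ∈ Finset.range (n + 1), (dg B j : ℝ) * (R⁻¹) ^ (j + 1)) - (1 - c) / R := by
      rw [Finset.sum_range_succ', Finset.sum_range_succ', Complex.add_re, Complex.re_sum]
      have h4 : ∀ j ∈ Finset.range n, ((dg B (j + 1) : ℂ) * (Z⁻¹) ^ (j + 1 + 1)).re ≤
          (dg B (j + 1) : ℝ) * (R⁻¹) ^ (j + 1 + 1) := by
        intro j _
        refine (Complex.re_le_norm _).trans ?_
        rw [norm_mul, norm_pow, hinv]
        have h5 : ‖(dg B (j + 1) : ℂ)‖ = (dg B (j + 1) : ℝ) := by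
          rw [Complex.norm_intCast, abs_of_nonneg]
          exact_mod_cast dg_nonneg B hB (j + 1)
        rw [h5]
      have h6 := Finset.sum_le_sum h4
      have h7 : ((dg B 0 : ℂ) * (Z⁻¹) ^ (0 + 1)).re = (dg B 0 : ℝ) * (c / R) := by
        rw [zero_add, pow_one, ← hre]
        simp
      have h8 : (1 : ℝ) ≤ (dg B 0 : ℝ) := by
        have : (1 : ℤ) ≤ dg B 0 := by
          unfold dg
          rw [Int.le_floor]
          show ((1 : ℤ) : ℝ) ≤ B * 1
          push_cast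
          linarith
        exact_mod_cast this
      rw [h7, zero_add, pow_one]
      have h9 : (dg B 0 : ℝ) * (c / R) ≤ (dg B 0 : ℝ) * R⁻¹ - (1 - c) / R := by
        have h10 : 0 ≤ (1 - c) / R := div_nonneg (by linarith) hR0.le
        have h11 : (dg B 0 : ℝ) * R⁻¹ - (dg B 0 : ℝ) * (c / R) = (dg B 0 : ℝ) * ((1 - c) / R) := by
          field_simp
        nlinarith
      linarith
    have h4 : (∑ j ∈ Finset.range (n + 1), (dg B j : ℝ) * (R⁻¹) ^ (j + 1)) ≤
        1 + (B - R) / (R - 1) := by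
      rw [h2]
      have h5 : 0 ≤ orb B (n + 1) * (R⁻¹) ^ (n + 1) :=
        mul_nonneg (orb_nonneg B _) (pow_nonneg (inv_nonneg.2 hR0.le) _)
      have h6 : ∑ j ∈ Finset.range (n + 1), orb B j * (R⁻¹) ^ j ≤ (1 - R⁻¹)⁻¹ := by
        refine (Finset.sum_le_sum fun j _ => ?_).trans
          (geom_le (R⁻¹) (inv_nonneg.2 hR0.le) (inv_lt_one_of_one_lt₀ hR1) (n + 1))
        have h7 := orb_le_one B j
        have h8 : 0 ≤ (R⁻¹) ^ j := pow_nonneg (inv_nonneg.2 hR0.le) _
        nlinarith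
      have h7 : 0 ≤ B * R⁻¹ - 1 := by
        rw [← div_eq_mul_inv, sub_nonneg, le_div_iff₀ hR0]
        linarith
      have h8 : (B * R⁻¹ - 1) * (1 - R⁻¹)⁻¹ = (B - R) / (R - 1) := by
        have h9 : R - 1 ≠ 0 := by linarith
        have h10 : R ≠ 0 := hR0.ne'
        have h11 : 1 - R⁻¹ = (R - 1) / R := by field_simp
        rw [h11, inv_div]
        field_simp
      have h9 := mul_le_mul_of_nonneg_left h6 h7
      rw [h8] at h9
      linarith
    have h5 : 1 - C * (R⁻¹) ^ (n + 1) ≤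
        (∑ j ∈ Finset.range (n + 1), (dg B j : ℂ) * (Z⁻¹) ^ (j + 1)).re := by
      rw [h1, Complex.sub_re, Complex.one_re]
      have h6 : (aeval Z (PP B (n + 1)) * (Z⁻¹) ^ (n + 1)).re ≤ C * (R⁻¹) ^ (n + 1) := by
        refine (Complex.re_le_norm _).trans ?_
        rw [norm_mul, norm_pow, hinv]
        exact mul_le_mul_of_nonneg_right (hC _) (pow_nonneg (inv_nonneg.2 hR0.le) _)
      linarith
    linarith
  have hlim : Tendsto (fun n : ℕ => (B - R) / (R - 1) + C * (R⁻¹) ^ (n + 1)) atTop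
      (𝓝 ((B - R) / (R - 1))) := by
    have h1 : Tendsto (fun n : ℕ => (R⁻¹) ^ n) atTop (𝓝 0) :=
      tendsto_pow_atTop_nhds_zero_of_lt_one (inv_nonneg.2 hR0.le) (inv_lt_one_of_one_lt₀ hR1)
    have h2 := (h1.comp (tendsto_add_atTop_nat 1)).const_mul C
    have h3 := h2.const_add ((B - R) / (R - 1))
    simpa using h3
  have hfin := ge_of_tendsto' hlim key
  rw [div_le_div_iff₀ hR0 (by linarith)] at hfin
  linarith

/-- **(B)** Solomyak's bound: `R ≤ (1 + √5)/2` -/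
theorem ineqB (B : ℝ) (Z : ℂ) (R C : ℝ) (hR : ‖Z‖ = R) (hR1 : 1 < R)
    (hne : (B : ℂ) ≠ Z) (hC : ∀ n, ‖aeval Z (PP B n)‖ ≤ C) :
    R ^ 2 ≤ R + 1 := by
  have hR0 : 0 < R := by linarith
  have hZ0 : Z ≠ 0 := by
    rintro rfl
    rw [norm_zero] at hR
    linarith
  have hC0 : 0 ≤ C := (norm_nonneg _).trans (hC 0)
  set x : ℂ := Z⁻¹ with hx
  set ρ : ℝ := R⁻¹ with hρ
  have hρ0 : 0 < ρ := inv_pos.2 hR0
  have hρ1 : ρ < 1 := inv_lt_one_of_one_lt₀ hR1
  have hxn : ‖x‖ = ρ := by rw [hx, norm_inv, hR]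
  have hx1 : (1 : ℂ) - x ≠ 0 := by
    intro h
    have : x = 1 := (sub_eq_zero.1 h).symm
    rw [this, norm_one] at hxn
    linarith
  have hBx : (B : ℂ) * x - 1 ≠ 0 := by
    intro h
    apply hne
    have h1 : (B : ℂ) * x = 1 := sub_eq_zero.1 h
    rw [hx] at h1
    field_simp at h1
    exact h1
  have hpow : Tendsto (fun n : ℕ => ρ ^ n) atTop (𝓝 0) :=
    tendsto_pow_atTop_nhds_zero_of_lt_one hρ0.le hρ1
  have hpowx : Tendsto (fun n : ℕ => x ^ n) atTop (𝓝 0) :=
    tendsto_pow_atTop_nhds_zero_of_norm_lt_one (by rw [hxn]; exact hρ1)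
  let G : ℕ → ℂ := fun n => ∑ j ∈ Finset.range n, (orb B j : ℂ) * x ^ j
  have hG : ∀ n, ‖G n‖ ≤ ((1 + C) / ‖(B : ℂ) * x - 1‖) * ρ ^ n := by
    intro n
    have h1 := partial_sum B Z hZ0 n
    have h2 := partial_orb Complex.ofRealHom B x n
    simp only [Complex.ofRealHom_eq_coe, Complex.ofReal_intCast] at h2
    rw [h1] at h2
    have h3 : ((B : ℂ) * x - 1) * G n = (orb B n - aeval Z (PP B n)) * x ^ n := by
      show ((B : ℂ) * x - 1) * ∑ j ∈ Finset.range n, (orb B j : ℂ) * x ^ j = _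
      linear_combination -h2
    have h4 : ‖(B : ℂ) * x - 1‖ * ‖G n‖ ≤ (1 + C) * ρ ^ n := by
      rw [← norm_mul, h3, norm_mul, norm_pow, hxn]
      apply mul_le_mul_of_nonneg_right _ (pow_nonneg hρ0.le _)
      refine (norm_sub_le _ _).trans ?_
      have h5 : ‖(orb B n : ℂ)‖ ≤ 1 := by
        rw [Complex.norm_real, Real.norm_eq_abs, abs_of_nonneg (orb_nonneg B n)]
        exact orb_le_one B n
      linarith [hC n]
    have h6 : 0 < ‖(B : ℂ) * x - 1‖ := norm_pos_iff.2 hBx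
    rw [div_mul_eq_mul_div, le_div_iff₀ h6]
    linarith
  -- the real part
  have key : ∀ n : ℕ, 1 + ((1 - x ^ (n + 1)) / (1 - x)).re ≤
      2 * (((1 + C) / ‖(B : ℂ) * x - 1‖) * ρ ^ (n + 1)) + ρ * (1 - ρ)⁻¹ := by
    intro n
    have h1 : (1 - x ^ (n + 1)) / (1 - x) = ∑ j ∈ Finset.range (n + 1), x ^ j := by
      rw [← geom_sum_mul_neg x (n + 1), mul_div_assoc, div_self hx1, mul_one]
    have h2 : 1 + ∑ j ∈ Finset.range (n + 1), x ^ j =
        2 * G (n + 1) + ∑ j ∈ Finset.range n, ((1 - 2 * orb B (j + 1) : ℝ) : ℂ) * x ^ (j + 1) := by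
      show _ = 2 * (∑ j ∈ Finset.range (n + 1), (orb B j : ℂ) * x ^ j) + _
      rw [Finset.sum_range_succ' (fun j => x ^ j), Finset.sum_range_succ'
        (fun j => (orb B j : ℂ) * x ^ j), mul_add, Finset.mul_sum]
      have h3 : ∑ j ∈ Finset.range n, x ^ (j + 1) =
          ∑ j ∈ Finset.range n, 2 * ((orb B (j + 1) : ℂ) * x ^ (j + 1)) +
          ∑ j ∈ Finset.range n, ((1 - 2 * orb B (j + 1) : ℝ) : ℂ) * x ^ (j + 1) := by
        rw [← Finset.sum_add_distrib]
        apply Finset.sum_congr rfl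
        intro j _
        push_cast
        ring
      rw [h3]
      have h4 : (orb B 0 : ℂ) = 1 := by simp [orb]
      rw [h4]
      ring
    have h3 : ‖∑ j ∈ Finset.range n, ((1 - 2 * orb B (j + 1) : ℝ) : ℂ) * x ^ (j + 1)‖ ≤
        ρ * (1 - ρ)⁻¹ := by
      refine (norm_sum_le _ _).trans ?_
      have h4 : ∀ j ∈ Finset.range n, ‖((1 - 2 * orb B (j + 1) : ℝ) : ℂ) * x ^ (j + 1)‖ ≤
          ρ * ρ ^ j := by
        intro j _
        rw [norm_mul, norm_pow, hxn, Complex.norm_real, Real.norm_eq_abs, pow_succ']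
        have h5 : |1 - 2 * orb B (j + 1)| ≤ 1 := by
          rw [abs_le]
          constructor
          · linarith [orb_le_one B (j + 1)]
          · linarith [orb_nonneg B (j + 1)]
        have h6 : 0 ≤ ρ * ρ ^ j := by positivity
        nlinarith
      refine (Finset.sum_le_sum h4).trans ?_
      rw [← Finset.mul_sum]
      exact mul_le_mul_of_nonneg_left (geom_le ρ hρ0.le hρ1 n) hρ0.le
    have h4 : 1 + ((1 - x ^ (n + 1)) / (1 - x)).re ≤
        ‖1 + ∑ j ∈ Finset.range (n + 1), x ^ j‖ := by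
      rw [h1]
      have := Complex.re_le_norm (1 + ∑ j ∈ Finset.range (n + 1), x ^ j)
      rw [Complex.add_re, Complex.one_re] at this
      exact this
    refine h4.trans ?_
    rw [h2]
    refine (norm_add_le _ _).trans ?_
    have h5 : ‖2 * G (n + 1)‖ = 2 * ‖G (n + 1)‖ := by
      rw [norm_mul]; norm_num
    rw [h5]
    have := hG (n + 1)
    linarith
  have hlim1 : Tendsto (fun n : ℕ => 1 + ((1 - x ^ (n + 1)) / (1 - x)).re) atTop
      (𝓝 (1 + ((1 - x)⁻¹).re)) := by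
    have h1 : Tendsto (fun n : ℕ => (1 - x ^ (n + 1)) / (1 - x)) atTop (𝓝 ((1 - 0) / (1 - x))) :=
      ((hpowx.comp (tendsto_add_atTop_nat 1)).const_sub 1).div_const (1 - x)
    have h2 := (Complex.continuous_re.tendsto _).comp h1
    have h3 := h2.const_add 1
    rw [sub_zero, one_div] at h3
    exact h3
  have hlim2 : Tendsto (fun n : ℕ => 2 * (((1 + C) / ‖(B : ℂ) * x - 1‖) * ρ ^ (n + 1))
      + ρ * (1 - ρ)⁻¹) atTop (𝓝 (ρ * (1 - ρ)⁻¹)) := by
    have h1 := (((hpow.comp (tendsto_add_atTop_nat 1)).const_mul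
      ((1 + C) / ‖(B : ℂ) * x - 1‖)).const_mul 2).add_const (ρ * (1 - ρ)⁻¹)
    simpa using h1
  have hfin := le_of_tendsto_of_tendsto' hlim1 hlim2 key
  -- lower bound for the real part
  have hre : (1 + ρ)⁻¹ ≤ ((1 - x)⁻¹).re := by
    have hn : Complex.normSq x = ρ ^ 2 := by rw [Complex.normSq_eq_norm_sq, hxn]
    rw [Complex.normSq_apply] at hn
    have hu : -ρ ≤ x.re := by
      have := Complex.abs_re_le_norm x
      rw [hxn] at this
      exact (abs_le.1 this).1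
    have hpos : 0 < Complex.normSq (1 - x) := Complex.normSq_pos.2 hx1
    rw [Complex.inv_re, Complex.sub_re, Complex.one_re, inv_eq_one_div, div_le_div_iff₀
      (by linarith) hpos, Complex.normSq_apply]
    simp
    nlinarith [mul_nonneg (by linarith : 0 ≤ ρ + x.re) (by linarith : 0 ≤ 1 - ρ)]
  have h1 : 1 + (1 + ρ)⁻¹ ≤ ρ * (1 - ρ)⁻¹ := by linarith
  have h2 : 1 ≤ ρ ^ 2 + ρ := by
    have h3 : 0 < 1 + ρ := by linarith
    have h4 : 0 < 1 - ρ := by linarith
    have h5 : 1 + (1 + ρ)⁻¹ = (2 + ρ) / (1 + ρ) := by field_simp; ring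
    rw [h5, ← div_eq_mul_inv, div_le_div_iff₀ h3 h4] at h1
    nlinarith
  have h3 : ρ * R = 1 := inv_mul_cancel₀ hR0.ne'
  have h4 : R ^ 2 * 1 ≤ R ^ 2 * (ρ ^ 2 + ρ) := mul_le_mul_of_nonneg_left h2 (by positivity)
  have h5 : R ^ 2 * (ρ ^ 2 + ρ) = (ρ * R) ^ 2 + (ρ * R) * R := by ring
  rw [h5, h3] at h4
  linarith

end Pool.Agent.X118.PP
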